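import Pool.Agent.Y878.G.Locj

/-!
# Project G: local structure at the fixed points of `μ_ρ`, second part
-/

set_option autoImplicit false

namespace Pool.Agent.Y878.G

open IsLocalRing Pool.Agent.W418.LU2 Pool.Agent.Y223.G

section main

variable {k K : Type} [CommRing k] [Field K] [Algebra k K] {C : Subalgebra k (LP K)}

/-- the images of the homogeneous elements of degrees between `0` and `ρ` in the cotangent space -/
def SS (C : Subalgebra k (LP K)) (ρ : ℕ) (B : Type) [CommRing B] [IsLocalRing B] [Algebra C B] :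
    Set (CotangentSpace B) :=
  {v | ∃ (a : ℕ) (x : K) (h : hm a x ∈ C), 0 < a ∧ a < ρ ∧
    ∃ h' : algebraMap C B ⟨hm a x, h⟩ ∈ maximalIdeal B,
      v = ((maximalIdeal B).toCotangent ⟨algebraMap C B ⟨hm a x, h⟩, h'⟩ : CotangentSpace B)}

/-- the components of the relation -/
lemma main_step [IsNoetherianRing C] (hC : Gr C) (ρ : ℕ) (Q : Ideal C) [Q.IsPrime]
    {B : Type} [CommRing B] [IsLocalRing B] [Algebra C B] [IsLocalization.AtPrime B Q]
    (hJ : JJ C ρ ≤ Q) {c : ℕ} (a : Fin c → ℕ) (x : Fin c → K) (hx : ∀ j, hm (a j) (x j) ∈ C)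
    (i : ℤ) (hi : ¬ (ρ : ℤ) ∣ i) (y : K) (hy : hm i y ∈ C) (t : Fin c → B)
    (ht : algebraMap C B ⟨hm i y, hy⟩ -
      ∑ j, t j * algebraMap C B ⟨hm (a j) (x j), hx j⟩ ∈ maximalIdeal B ^ 2) :
    algebraMap C B ⟨hm i y, hy⟩ ∈
      Ideal.span (Set.range fun j => algebraMap C B ⟨hm (a j) (x j), hx j⟩) ⊔
      maximalIdeal B • (JJ C ρ).map (algebraMap C B) := by
  classical
  have hinj : Function.Injective (algebraMap C B) :=
    IsLocalization.injective B Q.primeCompl_le_nonZeroDivisors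
  have hmax : maximalIdeal B = Q.map (algebraMap C B) :=
    (IsLocalization.AtPrime.map_eq_maximalIdeal Q B).symm
  rw [hmax, ← Ideal.map_pow, IsLocalization.mem_map_algebraMap_iff Q.primeCompl B] at ht
  obtain ⟨⟨q, g1⟩, hq⟩ := ht
  obtain ⟨g0, hg0⟩ := IsLocalization.exist_integer_multiples_of_finite Q.primeCompl t
  choose s hs using hg0
  have hq' : (algebraMap C B ⟨hm i y, hy⟩ -
      ∑ j, t j * algebraMap C B ⟨hm (a j) (x j), hx j⟩) * algebraMap C B g1 =
        algebraMap C B (q : C) := hq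
  have hs' : ∀ j, algebraMap C B (s j) = algebraMap C B g0 * t j := by
    intro j
    rw [hs j, Algebra.smul_def]
  -- the relation in `C`
  have hrel : (g0 * g1 : C) * ⟨hm i y, hy⟩ =
      ∑ j, (g1 * s j) * (⟨hm (a j) (x j), hx j⟩ : C) + g0 * q := by
    apply hinj
    rw [map_mul, map_add, map_sum]
    have h1 : ∀ j, algebraMap C B ((g1 * s j) * (⟨hm (a j) (x j), hx j⟩ : C)) =
        algebraMap C B g1 * algebraMap C B g0 *
          (t j * algebraMap C B ⟨hm (a j) (x j), hx j⟩) := by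
      intro j
      rw [map_mul, map_mul, hs' j]; ring
    rw [Finset.sum_congr rfl fun j _ => h1 j, ← Finset.mul_sum, map_mul, map_mul, ← hq']
    ring
  -- the component of class `i`
  have hcomp : prC hC ρ 0 (g0 * g1 : C) * ⟨hm i y, hy⟩ =
      ∑ j, prC hC ρ (i - a j) (g1 * s j) * (⟨hm (a j) (x j), hx j⟩ : C) +
        prC hC ρ i (g0 * q) := by
    have h1 := congrArg (prC hC ρ i) hrel
    rw [map_add, map_sum, prC_mul_hm, sub_self] at h1
    rw [h1]
    congr 1
    refine Finset.sum_congr rfl fun j _ => ?_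
    rw [prC_mul_hm]
  have hg : prC hC ρ 0 (g0 * g1 : C) ∉ Q := by
    intro h
    have h1 := hJ (sub_pr_mem hC ρ (g0 * g1 : C))
    have h2 : (g0 * g1 : C) ∈ Q := by
      have := Q.add_mem h1 h
      rwa [sub_add_cancel] at this
    rcases Ideal.IsPrime.mem_or_mem ‹_› h2 with h3 | h3
    · exact g0.2 h3
    · exact g1.2 h3
  have hu : IsUnit (algebraMap C B (prC hC ρ 0 (g0 * g1 : C))) :=
    IsLocalization.map_units B (⟨_, hg⟩ : Q.primeCompl)
  have hqJ : prC hC ρ i (g0 * q) ∈ Q * JJ C ρ := by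
    apply pr_Q2 hC hJ hi
    exact Ideal.mul_mem_left _ _ q.2
  have h4 := congrArg (algebraMap C B) hcomp
  rw [map_mul, map_add, map_sum] at h4
  obtain ⟨w, hw⟩ := hu.exists_left_inv
  have h5 : algebraMap C B ⟨hm i y, hy⟩ = w * (∑ j, algebraMap C B
      (prC hC ρ (i - a j) (g1 * s j) * (⟨hm (a j) (x j), hx j⟩ : C)) +
        algebraMap C B (prC hC ρ i (g0 * q))) := by
    rw [← h4, ← mul_assoc, hw, one_mul]
  rw [h5, mul_add]
  refine Submodule.add_mem_sup ?_ ?_
  · apply Ideal.mul_mem_left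
    refine Ideal.sum_mem _ fun j _ => ?_
    rw [map_mul]
    exact Ideal.mul_mem_left _ _ (Ideal.subset_span ⟨j, rfl⟩)
  · apply Ideal.mul_mem_left
    rw [smul_eq_mul, hmax, ← Ideal.map_mul]
    exact Ideal.mem_map_of_mem _ hqJ

theorem loc_gen [IsNoetherianRing C] (hC : Gr C) (ρ : ℕ) (hρ : 0 < ρ) (u : K) (hu0 : u ≠ 0)
    (hu : hm ρ u ∈ C) (hu' : hm (-ρ) u⁻¹ ∈ C) (Q : Ideal C) [Q.IsPrime]
    {B : Type} [CommRing B] [IsLocalRing B] [IsNoetherianRing B] [Algebra C B]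
    [IsLocalization.AtPrime B Q] (hJ : JJ C ρ ≤ Q) :
    ∃ (c : ℕ) (a : Fin c → ℕ) (x : Fin c → K)
      (hx : ∀ j, 0 < a j ∧ a j < ρ ∧ hm (a j) (x j) ∈ C),
      Ind (fun j => algebraMap C B ⟨hm (a j) (x j), (hx j).2.2⟩) ∧
      ∀ (i : ℤ) (y : K) (h : hm i y ∈ C), ¬ (ρ : ℤ) ∣ i →
        algebraMap C B ⟨hm i y, h⟩ ∈ Ideal.span (Set.range
          fun j => algebraMap C B ⟨hm (a j) (x j), (hx j).2.2⟩) := by
  classical
  obtain ⟨f, hfS, hspan, hli⟩ := Submodule.exists_fun_fin_finrank_span_eq (ResidueField B)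
    (SS C ρ B)
  generalize Module.finrank (ResidueField B) (Submodule.span (ResidueField B) (SS C ρ B)) = c
    at f hfS hspan hli
  have hfS' : ∀ j, ∃ (a : ℕ) (x : K) (h : hm a x ∈ C), 0 < a ∧ a < ρ ∧
    ∃ h' : algebraMap C B ⟨hm a x, h⟩ ∈ maximalIdeal B,
      f j = ((maximalIdeal B).toCotangent ⟨algebraMap C B ⟨hm a x, h⟩, h'⟩ : CotangentSpace B) :=
    hfS
  choose a x hx ha0 haρ hm' hf using hfS'
  have hInd : Ind (fun j => algebraMap C B ⟨hm (a j) (x j), hx j⟩) := by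
    rw [ind_iff hm']
    have : (fun i => ((maximalIdeal B).toCotangent ⟨algebraMap C B ⟨hm (a i) (x i), hx i⟩,
        hm' i⟩ : CotangentSpace B)) = f := by
      funext i
      exact (hf i).symm
    rw [this]
    exact hli
  refine ⟨c, a, x, fun j => ⟨ha0 j, haρ j, hx j⟩, hInd, ?_⟩
  have hJQ : ∀ (i : ℤ) (y : K) (hy : hm i y ∈ C), ¬ (ρ : ℤ) ∣ i → (⟨hm i y, hy⟩ : C) ∈ Q :=
    fun i y hy hi => hJ (Ideal.subset_span ⟨i, y, hi, rfl⟩)
  -- homogeneous elements of degrees between `0` and `ρ`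
  have key : ∀ (i : ℕ) (y : K) (hy : hm i y ∈ C), 0 < i → i < ρ →
      algebraMap C B ⟨hm i y, hy⟩ ∈ Ideal.span (Set.range
        fun j => algebraMap C B ⟨hm (a j) (x j), hx j⟩) ⊔
          maximalIdeal B • (JJ C ρ).map (algebraMap C B) := by
    intro i y hy hi0 hiρ
    have hnd : ¬ (ρ : ℤ) ∣ (i : ℤ) := by
      intro h
      have h1 : ρ ∣ i := by exact_mod_cast h
      exact absurd (Nat.le_of_dvd hi0 h1) (not_le.mpr hiρ)
    have hyQ : (⟨hm i y, hy⟩ : C) ∈ Q := hJQ i y hy hnd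
    have hyB : algebraMap C B ⟨hm i y, hy⟩ ∈ maximalIdeal B := by
      rw [← IsLocalization.AtPrime.map_eq_maximalIdeal Q B]
      exact Ideal.mem_map_of_mem _ hyQ
    have hv : ((maximalIdeal B).toCotangent ⟨algebraMap C B ⟨hm i y, hy⟩, hyB⟩ :
        CotangentSpace B) ∈ Submodule.span (ResidueField B) (Set.range f) := by
      rw [hspan]
      exact Submodule.subset_span ⟨i, y, hy, hi0, hiρ, hyB, rfl⟩
    rw [Submodule.mem_span_range_iff_exists_fun] at hv
    obtain ⟨r, hr⟩ := hv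
    choose t ht using fun j => residue_surjective (R := B) (r j)
    refine main_step hC ρ Q hJ a x hx i hnd y hy t ?_
    have h1 : ((maximalIdeal B).toCotangent (⟨algebraMap C B ⟨hm i y, hy⟩, hyB⟩ -
        ∑ j, t j • ⟨algebraMap C B ⟨hm (a j) (x j), hx j⟩, hm' j⟩) : CotangentSpace B) = 0 := by
      rw [map_sub, map_sum, sub_eq_zero]
      refine Eq.trans hr.symm ?_
      refine Finset.sum_congr rfl fun j _ => ?_
      rw [map_smul, hf j, ← ht j]
      rfl
    rw [Ideal.toCotangent_eq_zero] at h1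
    have h2 : (((⟨algebraMap C B ⟨hm i y, hy⟩, hyB⟩ -
        ∑ j, t j • ⟨algebraMap C B ⟨hm (a j) (x j), hx j⟩, hm' j⟩ : maximalIdeal B)) : B) =
        algebraMap C B ⟨hm i y, hy⟩ -
          ∑ j, t j * algebraMap C B ⟨hm (a j) (x j), hx j⟩ := by
      rw [AddSubgroupClass.coe_sub, AddSubmonoidClass.coe_finsetSum]
      rfl
    rw [← h2]
    exact h1
  -- all homogeneous elements
  have key2 : ∀ (i : ℤ) (y : K) (hy : hm i y ∈ C), ¬ (ρ : ℤ) ∣ i →
      algebraMap C B ⟨hm i y, hy⟩ ∈ Ideal.span (Set.range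
        fun j => algebraMap C B ⟨hm (a j) (x j), hx j⟩) ⊔
          maximalIdeal B • (JJ C ρ).map (algebraMap C B) := by
    intro i y hy hi
    have hρ' : (0 : ℤ) < ρ := by exact_mod_cast hρ
    have hmod := Int.emod_lt_of_pos i hρ'
    have hmod0 := Int.emod_nonneg i hρ'.ne'
    have hdiv := Int.mul_ediv_add_emod i ρ
    obtain ⟨n, hn⟩ := Int.eq_ofNat_of_zero_le hmod0
    have hn0 : 0 < n := by
      rcases Nat.eq_zero_or_pos n with h | h
      · exfalso
        apply hi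
        apply Int.dvd_of_emod_eq_zero
        rw [hn, h]; rfl
      · exact h
    have hnρ : n < ρ := by
      rw [hn] at hmod
      exact_mod_cast hmod
    have hy1 : hm (n : ℤ) (y * u ^ (-(i / ρ))) ∈ C := by
      have h3 := C.mul_mem hy (zpow_unit_mem hu hu' (-(i / ρ)))
      rw [hm_mul] at h3
      have e2 : i + -(i / ρ) * ρ = n := by rw [← hn]; linear_combination (-1 : ℤ) * hdiv
      rwa [e2] at h3
    have h4 := key n _ hy1 hn0 hnρ
    have e1 : (⟨hm i y, hy⟩ : C) =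
        ⟨hm (i / ρ * ρ) (u ^ (i / ρ)), zpow_unit_mem hu hu' (i / ρ)⟩ *
          ⟨hm (n : ℤ) (y * u ^ (-(i / ρ))), hy1⟩ := by
      apply Subtype.ext
      rw [Subalgebra.coe_mul]
      change hm i y = hm (i / ρ * ρ) (u ^ (i / ρ)) * hm (n : ℤ) (y * u ^ (-(i / ρ)))
      rw [hm_mul]
      congr 1
      · rw [← hn]; linear_combination (-1 : ℤ) * hdiv
      · rw [mul_left_comm, ← zpow_add₀ hu0, add_neg_cancel, zpow_zero, mul_one]
    rw [e1, map_mul]
    exact Ideal.mul_mem_left _ _ h4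
  -- Nakayama
  have hle : (JJ C ρ).map (algebraMap C B) ≤ Ideal.span (Set.range
        fun j => algebraMap C B ⟨hm (a j) (x j), hx j⟩) := by
    refine Submodule.le_of_le_smul_of_le_jacobson_bot (I := maximalIdeal B)
      (IsNoetherian.noetherian _)
      (by rw [IsLocalRing.jacobson_eq_maximalIdeal _ bot_ne_top]) ?_
    conv_lhs => unfold JJ
    rw [Ideal.map_span, Ideal.span_le]
    rintro _ ⟨f, ⟨i, y, hi, hf⟩, rfl⟩
    have hf' : f = ⟨hm i y, by rw [← hf]; exact f.2⟩ := Subtype.ext hf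
    rw [hf']
    exact key2 i y _ hi
  intro i y hy hi
  exact hle (Ideal.mem_map_of_mem _ (Ideal.subset_span ⟨i, y, hi, rfl⟩))

theorem t_LOCJ : S_LOCJ := by
  intro k K _ _ _ _ C hft hreg hC ρ hρ u hu0 hu hu' Q hQ hQJ
  have hnC : IsNoetherianRing C := Algebra.FiniteType.isNoetherianRing k C
  have hnB : IsNoetherianRing (Localization.AtPrime Q) :=
    IsLocalization.isNoetherianRing Q.primeCompl _ hnC
  have hJ : JJ C ρ ≤ Q := by
    unfold JJ
    rw [Ideal.span_le]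
    rintro f ⟨i, y, hi, hf⟩
    have hf' : f = ⟨hm i y, by rw [← hf]; exact f.2⟩ := Subtype.ext hf
    rw [hf']
    exact hQJ i y _ hi
  exact loc_gen hC ρ hρ u hu0 hu hu' Q hJ

end main

end Pool.Agent.Y878.G
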