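import Pool.Agent.Y223.G.Stm

/-!
# Project G: local structure at the fixed points of `μ_ρ`
-/

set_option autoImplicit false

namespace Pool.Agent.Y878.G

open IsLocalRing Pool.Agent.W418.LU2 Pool.Agent.Y223.G

section pr

variable {K : Type} [Field K]

/-- the sum of the homogeneous components of degrees congruent to `i` modulo `ρ` -/
noncomputable def pr (ρ : ℕ) (i : ℤ) (f : LP K) : LP K :=
  AddMonoidAlgebra.ofCoeff (f.coeff.filter fun d => (ρ : ℤ) ∣ d - i)

open Classical in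
lemma coeff_pr (ρ : ℕ) (i : ℤ) (f : LP K) (d : ℤ) :
    (pr ρ i f).coeff d = if (ρ : ℤ) ∣ d - i then f.coeff d else 0 := by
  unfold pr
  rw [AddMonoidAlgebra.coeff_ofCoeff, Finsupp.filter_apply]

lemma ext_coeff {f g : LP K} (h : ∀ d, f.coeff d = g.coeff d) : f = g :=
  AddMonoidAlgebra.ext (Finsupp.ext h)

lemma pr_add (ρ : ℕ) (i : ℤ) (f g : LP K) : pr ρ i (f + g) = pr ρ i f + pr ρ i g := by
  classical
  apply ext_coeff
  intro d
  rw [AddMonoidAlgebra.coeff_add, Finsupp.add_apply, coeff_pr, coeff_pr, coeff_pr,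
    AddMonoidAlgebra.coeff_add, Finsupp.add_apply]
  split_ifs
  · rfl
  · rw [add_zero]

attribute [irreducible] pr

lemma pr_zero (ρ : ℕ) (i : ℤ) : pr ρ i (0 : LP K) = 0 := by
  classical
  apply ext_coeff
  intro d
  rw [coeff_pr]
  simp

/-- the projection as an additive map -/
noncomputable def prA (ρ : ℕ) (i : ℤ) : LP K →+ LP K where
  toFun := pr ρ i
  map_zero' := pr_zero ρ i
  map_add' := pr_add ρ i

lemma prA_apply (ρ : ℕ) (i : ℤ) (f : LP K) : prA ρ i f = pr ρ i f := rfl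

lemma coeff_mul_hm (d : ℤ) (a : K) (f : LP K) (e : ℤ) :
    (f * hm d a).coeff e = f.coeff (e - d) * a := by
  rw [mul_comm, coeff_hm_mul, mul_comm]

lemma pr_mul_hm (ρ : ℕ) (i : ℤ) (f : LP K) (d : ℤ) (a : K) :
    pr ρ i (f * hm d a) = pr ρ (i - d) f * hm d a := by
  classical
  apply ext_coeff
  intro e
  rw [coeff_pr, coeff_mul_hm, coeff_mul_hm, coeff_pr]
  have h : e - i = e - d - (i - d) := by ring
  rw [h]
  split_ifs
  · rfl
  · rw [zero_mul]

lemma pr_congr (ρ : ℕ) {i j : ℤ} (h : (ρ : ℤ) ∣ i - j) (f : LP K) : pr ρ i f = pr ρ j f := by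
  classical
  apply ext_coeff
  intro d
  rw [coeff_pr, coeff_pr]
  have h1 : (ρ : ℤ) ∣ d - i ↔ (ρ : ℤ) ∣ d - j := by
    have e : d - j = (d - i) + (i - j) := by ring
    rw [e]
    exact (dvd_add_left h).symm
  simp only [h1]

/-- products of class zero elements have class zero -/
lemma pr_mul_zero (ρ : ℕ) {i : ℤ} (hi : ¬ (ρ : ℤ) ∣ i) (f g : LP K) :
    pr ρ i (pr ρ 0 f * pr ρ 0 g) = 0 := by
  classical
  rw [eq_sum_hm (pr ρ 0 g), Finset.mul_sum]
  rw [← prA_apply, map_sum]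
  refine Finset.sum_eq_zero fun d hd => ?_
  rw [prA_apply, pr_mul_hm]
  have hd' : (ρ : ℤ) ∣ d := by
    by_contra h
    rw [Finsupp.mem_support_iff, coeff_pr, if_neg (by rwa [sub_zero])] at hd
    exact hd rfl
  have : pr ρ (i - d) (pr ρ 0 f) = 0 := by
    apply ext_coeff
    intro e
    rw [coeff_pr, coeff_pr]
    split_ifs with h1 h2
    · exfalso
      apply hi
      have e1 : i = (e - 0) - (e - (i - d)) + d := by ring
      rw [e1]
      exact dvd_add (dvd_sub h2 h1) hd'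
    · simp
    · simp
  rw [this, zero_mul]

end pr

section alg

variable {k K : Type} [CommRing k] [Field K] [Algebra k K] {C : Subalgebra k (LP K)}

lemma pr_mem (hC : Gr C) (ρ : ℕ) (i : ℤ) {f : LP K} (hf : f ∈ C) : pr ρ i f ∈ C := by
  classical
  apply mem_of_comp
  intro d
  rw [coeff_pr]
  split_ifs
  · exact hC f hf d
  · rw [hm_zero]; exact C.zero_mem

/-- the projection on the graded algebra -/
noncomputable def prF (hC : Gr C) (ρ : ℕ) (i : ℤ) (f : C) : C := ⟨pr ρ i f.1, pr_mem hC ρ i f.2⟩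

lemma coe_prF (hC : Gr C) (ρ : ℕ) (i : ℤ) (f : C) : (prF hC ρ i f : LP K) = pr ρ i f.1 := rfl

/-- the projection as an additive map -/
noncomputable def prC (hC : Gr C) (ρ : ℕ) (i : ℤ) : C →+ C where
  toFun := prF hC ρ i
  map_zero' := by
    apply Subtype.ext
    rw [coe_prF]
    exact pr_zero ρ i
  map_add' f g := by
    apply Subtype.ext
    rw [Subalgebra.coe_add, coe_prF, coe_prF, coe_prF, ← pr_add, Subalgebra.coe_add]

lemma coe_prC (hC : Gr C) (ρ : ℕ) (i : ℤ) (f : C) : (prC hC ρ i f : LP K) = pr ρ i (f : LP K) :=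
  coe_prF hC ρ i f

lemma prC_mul_hm (hC : Gr C) (ρ : ℕ) (i : ℤ) (f : C) (d : ℤ) (a : K) (h : hm d a ∈ C) :
    prC hC ρ i (f * ⟨hm d a, h⟩) = prC hC ρ (i - d) f * ⟨hm d a, h⟩ := by
  apply Subtype.ext
  rw [coe_prC, Subalgebra.coe_mul, Subalgebra.coe_mul, coe_prC]
  exact pr_mul_hm ρ i f d a

/-- the ideal of the homogeneous elements of degrees not divisible by `ρ` -/
noncomputable def JJ (C : Subalgebra k (LP K)) (ρ : ℕ) : Ideal C :=
  Ideal.span {y | ∃ (i : ℤ) (a : K), ¬ (ρ : ℤ) ∣ i ∧ (y : LP K) = hm i a}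

/-- an element all of whose homogeneous components have degrees not divisible by `ρ` -/
lemma mem_JJ (hC : Gr C) (ρ : ℕ) (f : C)
    (hf : ∀ d : ℤ, (ρ : ℤ) ∣ d → (f : LP K).coeff d = 0) : f ∈ JJ C ρ := by
  classical
  have h1 : f = ∑ d ∈ (f : LP K).coeff.support, (⟨hm d ((f : LP K).coeff d), hC f f.2 d⟩ : C) := by
    apply Subtype.ext
    rw [AddSubmonoidClass.coe_finsetSum]
    exact eq_sum_hm (f : LP K)
  rw [h1]
  refine Ideal.sum_mem _ fun d hd => ?_
  refine Ideal.subset_span ⟨d, _, ?_, rfl⟩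
  intro h
  rw [Finsupp.mem_support_iff] at hd
  exact hd (hf d h)

lemma sub_pr_mem (hC : Gr C) (ρ : ℕ) (f : C) : f - prC hC ρ 0 f ∈ JJ C ρ := by
  classical
  apply mem_JJ hC
  intro d hd
  rw [Subalgebra.coe_sub, coe_prC, AddMonoidAlgebra.coeff_sub, Finsupp.sub_apply, coeff_pr, if_pos (by rwa [sub_zero]), sub_self]

lemma pr_mem_JJ (hC : Gr C) (ρ : ℕ) {i : ℤ} (hi : ¬ (ρ : ℤ) ∣ i) (f : C) :
    prC hC ρ i f ∈ JJ C ρ := by
  classical
  apply mem_JJ hC
  intro d hd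
  rw [coe_prC, coeff_pr, if_neg]
  intro h
  apply hi
  have e : i = d - (d - i) := by ring
  rw [e]
  exact dvd_sub hd h

variable {ρ : ℕ} {Q : Ideal C}

lemma pr_mem_Q (hC : Gr C) (hJ : JJ C ρ ≤ Q) (i : ℤ) {f : C} (hf : f ∈ Q) :
    prC hC ρ i f ∈ Q := by
  by_cases hi : (ρ : ℤ) ∣ i
  · have h1 : prC hC ρ i f = prC hC ρ 0 f :=
      Subtype.ext (pr_congr ρ (by rwa [sub_zero]) _)
    rw [h1]
    have h2 := hJ (sub_pr_mem hC ρ f)
    have h3 : prC hC ρ 0 f = f - (f - prC hC ρ 0 f) := by ring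
    rw [h3]
    exact Q.sub_mem hf h2
  · exact hJ (pr_mem_JJ hC ρ hi f)

/-- the ideal `Q J` is stable -/
lemma pr_QJ (hC : Gr C) (hJ : JJ C ρ ≤ Q) (i : ℤ) {f : C} (hf : f ∈ Q * JJ C ρ) :
    prC hC ρ i f ∈ Q * JJ C ρ := by
  induction hf using Submodule.mul_induction_on' with
  | mem_mul_mem a ha b hb =>
    unfold JJ at hb
    induction hb using Submodule.span_induction generalizing a with
    | mem x hx =>
      obtain ⟨d, y, hd, hx⟩ := hx
      have hx' : x = ⟨hm d y, by rw [← hx]; exact x.2⟩ := Subtype.ext hx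
      rw [hx', prC_mul_hm]
      exact Ideal.mul_mem_mul (pr_mem_Q hC hJ _ ha) (Ideal.subset_span ⟨d, y, hd, rfl⟩)
    | zero => rw [mul_zero, map_zero]; exact Ideal.zero_mem _
    | add x y _ _ hx hy => rw [mul_add, map_add]; exact Ideal.add_mem _ (hx a ha) (hy a ha)
    | smul r x _ hx =>
      have h1 : a * r • x = (a * r) * x := by rw [smul_eq_mul]; ring
      rw [h1]
      exact hx _ (Ideal.mul_mem_right _ _ ha)
  | add x _ y _ hx hy => rw [map_add]; exact Ideal.add_mem _ hx hy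

/-- the main point: components of elements of the square of `Q` -/
lemma pr_Q2 (hC : Gr C) (hJ : JJ C ρ ≤ Q) {i : ℤ} (hi : ¬ (ρ : ℤ) ∣ i) {f : C}
    (hf : f ∈ Q ^ 2) : prC hC ρ i f ∈ Q * JJ C ρ := by
  rw [pow_two] at hf
  induction hf using Submodule.mul_induction_on' with
  | mem_mul_mem a ha b hb =>
    have ha1 := sub_pr_mem hC ρ a
    have hb1 := sub_pr_mem hC ρ b
    have ha0 := pr_mem_Q hC hJ 0 ha
    have h1 : a * b = prC hC ρ 0 a * prC hC ρ 0 b +
        (prC hC ρ 0 a * (b - prC hC ρ 0 b) + b * (a - prC hC ρ 0 a)) := by ring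
    rw [h1, map_add]
    have h2 : prC hC ρ i (prC hC ρ 0 a * prC hC ρ 0 b) = 0 := by
      apply Subtype.ext
      rw [coe_prC, Subalgebra.coe_mul, coe_prC, coe_prC, pr_mul_zero ρ hi]
      rfl
    rw [h2, zero_add]
    apply pr_QJ hC hJ
    exact Ideal.add_mem _ (Ideal.mul_mem_mul ha0 hb1) (Ideal.mul_mem_mul hb ha1)
  | add x _ y _ hx hy => rw [map_add]; exact Ideal.add_mem _ hx hy

end alg

end Pool.Agent.Y878.G
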